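import Mathlib
import Pool.Agent.Q3.Dixon.Main

/-!
# MP_ab14aa_co: a flexible strictly convex configuration of a generically rigid braced polygon
-/

set_option autoImplicit false

namespace Pool.Agent.Results.MP_ab14aa_co.FlexibleConvex

/-- the Euclidean plane -/
abbrev Plane : Type := EuclideanSpace ℝ (Fin 2)

/-- `G` is a braced polygon graph: it contains the sides `v_i v_{i+1}` (cyclically) -/
def IsBracedPolygon {n : ℕ} [NeZero n] (G : SimpleGraph (Fin n)) : Prop :=
  ∀ i, G.Adj i (i + 1)

/-- twice the signed area of the triangle `x y z` -/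
noncomputable def orient (x y z : Plane) : ℝ :=
  (y 0 - x 0) * (z 1 - x 1) - (y 1 - x 1) * (z 0 - x 0)

/-- `p_0, …, p_{n-1}` are, in this cyclic (counterclockwise) order, the vertices of a strictly
convex polygon: for every side `p_i p_{i+1}` all the other vertices lie strictly to its left -/
def StrictlyConvex {n : ℕ} [NeZero n] (p : Fin n → Plane) : Prop :=
  ∀ i j, j ≠ i → j ≠ i + 1 → 0 < orient (p i) (p (i + 1)) (p j)

/-- the framework `(G, p)` is flexible: there is a continuous motion of `p` that preserves the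
lengths of all bars and reaches a configuration which is not congruent to `p` (some distance
between two vertices is different) -/
def Flexible {n : ℕ} (G : SimpleGraph (Fin n)) (p : Fin n → Plane) : Prop :=
  ∃ P : unitInterval → Fin n → Plane, Continuous P ∧ P 0 = p ∧
    (∀ t u w, G.Adj u w → dist (P t u) (P t w) = dist (p u) (p w)) ∧
    ∃ t u w, dist (P t u) (P t w) ≠ dist (p u) (p w)

/-- `(G, p)` is rigid -/
def Rigid {n : ℕ} (G : SimpleGraph (Fin n)) (p : Fin n → Plane) : Prop := ¬ Flexible G p

/-- `G` is generically rigid: `(G, p)` is rigid for all `p` whose coordinates do not satisfy a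
certain nontrivial polynomial equation over `ℚ` -/
def GenericallyRigid {n : ℕ} (G : SimpleGraph (Fin n)) : Prop :=
  ∃ D : MvPolynomial (Fin n × Fin 2) ℚ, D ≠ 0 ∧ ∀ p : Fin n → Plane,
    MvPolynomial.aeval (fun v : Fin n × Fin 2 => p v.1 v.2) D ≠ 0 → Rigid G p

/-- There is a generically rigid braced polygon graph with a flexible strictly convex
configuration. (In particular `(G, p')` is rigid for every `p'` with algebraically independent
coordinates.) -/
theorem result : ∃ (n : ℕ) (_ : NeZero n) (G : SimpleGraph (Fin n)) (p : Fin n → Plane),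
    3 ≤ n ∧ IsBracedPolygon G ∧ GenericallyRigid G ∧
      (∀ p' : Fin n → Plane,
        AlgebraicIndependent ℚ (fun v : Fin n × Fin 2 => p' v.1 v.2) → Rigid G p') ∧
      StrictlyConvex p ∧ Flexible G p := by
  let G : SimpleGraph (Fin 12) :=
    { Adj := fun u w => (u, w) ∈ Q3.Dixon.E ∨ (w, u) ∈ Q3.Dixon.E
      symm := ⟨fun u w h => h.symm⟩
      loopless := ⟨by decide⟩ }
  have hG : GenericallyRigid G := by
    refine ⟨Q3.Dixon.Dpoly, Q3.Dixon.Dpoly_ne, ?_⟩
    rintro p hp ⟨P, hP, h0, hl, t, u, w, hne⟩
    apply hne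
    have hf : (fun v : Fin 12 × Fin 2 => p v.1 v.2) =
        fun v : Fin 12 × Fin 2 => if v.2 = 0 then (fun i => p i 0) v.1 else
          (fun i => p i 1) v.1 := by
      funext v
      obtain ⟨i, j⟩ := v
      fin_cases j <;> simp
    have hp' : Q3.Dixon.Dval (fun i => p i 0) (fun i => p i 1) ≠ 0 := by
      rw [← Q3.Dixon.aeval_Dpoly]
      intro h
      apply hp
      rw [hf]
      exact h
    have key := Q3.Dixon.rigid_of_Dval (fun t i => P t i 0) (fun t i => P t i 1)
      (by fun_prop) (by fun_prop) (by simpa only [h0] using hp') (by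
        intro t e he
        have h1 := hl t e.1 e.2 (Or.inl he)
        rw [← h0, EuclideanSpace.dist_eq, EuclideanSpace.dist_eq,
          Real.sqrt_inj (by positivity) (by positivity)] at h1
        simp only [Fin.sum_univ_two, Real.dist_eq, sq_abs] at h1
        exact h1) t u w
    rw [← h0, EuclideanSpace.dist_eq, EuclideanSpace.dist_eq]
    congr 1
    simp only [Fin.sum_univ_two, Real.dist_eq, sq_abs]
    exact key
  refine ⟨12, inferInstance, G,
    fun i => WithLp.toLp 2 ![Q3.Dixon.mx 0 i, Q3.Dixon.my 0 i], by norm_num, ?_, hG, ?_, ?_, ?_⟩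
  · intro i
    change (i, i + 1) ∈ Q3.Dixon.E ∨ (i + 1, i) ∈ Q3.Dixon.E
    revert i
    decide
  · obtain ⟨D, hD, h⟩ := hG
    intro p' hp'
    apply h
    intro h0
    exact hD (hp'.eq_zero_of_aeval_eq_zero D h0)
  · intro i j h1 h2
    simp only [orient, Q3.Dixon.mx_zero, Q3.Dixon.my_zero]
    revert h1 h2
    fin_cases i <;> fin_cases j <;> intro h1 h2 <;> first
      | exact absurd rfl h1
      | exact absurd rfl h2
      | (simp <;> norm_num)
  · refine ⟨fun t i => WithLp.toLp 2 ![Q3.Dixon.mx t i, Q3.Dixon.my t i], ?_, ?_, ?_, 1, 1, 5, ?_⟩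
    · refine continuous_pi fun i => (PiLp.continuous_toLp 2 _).comp (continuous_pi fun j => ?_)
      fin_cases j
      · exact (continuous_apply i).comp (Q3.Dixon.continuous_mx.comp continuous_subtype_val)
      · exact (continuous_apply i).comp (Q3.Dixon.continuous_my.comp continuous_subtype_val)
    · rfl
    · have hd : ∀ (s : ℝ) (u w : Fin 12),
          dist (WithLp.toLp 2 ![Q3.Dixon.mx s u, Q3.Dixon.my s u] : Plane)
            (WithLp.toLp 2 ![Q3.Dixon.mx s w, Q3.Dixon.my s w]) =
              √(Q3.Dixon.sq (Q3.Dixon.mx s) (Q3.Dixon.my s) u w) := by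
        intro s u w
        rw [EuclideanSpace.dist_eq]
        simp [Fin.sum_univ_two, Real.dist_eq, sq_abs, Q3.Dixon.sq]
      intro t u w h
      rw [hd, hd]
      congr 1
      rcases h with h | h
      · exact Q3.Dixon.lengths t t.2.1 t.2.2 (u, w) h
      · have := Q3.Dixon.lengths t t.2.1 t.2.2 (w, u) h
        simp only [Q3.Dixon.sq] at this ⊢
        linear_combination this
    · rw [EuclideanSpace.dist_eq, EuclideanSpace.dist_eq]
      intro h
      rw [Real.sqrt_inj (by positivity) (by positivity)] at h
      apply Q3.Dixon.moves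
      simpa [Fin.sum_univ_two, Real.dist_eq, sq_abs, Q3.Dixon.sq] using h

end Pool.Agent.Results.MP_ab14aa_co.FlexibleConvex
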